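import Pool.Agent.Q39.TC.Ext

/-! Positive semidefinite families of matrices over the one point compactification of `ℕ`. -/

open Matrix Filter Topology
open scoped ComplexOrder MatrixOrder Matrix.Norms.L2Operator

namespace Pool.Agent.Q39.TC

theorem dichotomy {k : ℕ} (hk : 0 < k) {M : Matrix (Fin k) (Fin k) ℂ} (h : M.PosSemidef) :
    (∃ ε : ℝ, 0 < ε ∧ (M - algebraMap ℝ _ ε).PosSemidef) ∨
      ∃ x : Fin k → ℂ, x ≠ 0 ∧ star x ⬝ᵥ (M *ᵥ x) = 0 := by
  have : Nonempty (Fin k) := ⟨⟨0, hk⟩⟩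
  by_cases hd : M.PosDef
  · left
    have h1 : IsStrictlyPositive M := hd.isStrictlyPositive
    obtain ⟨r, hr, hr2⟩ := (CFC.exists_pos_algebraMap_le_iff (a := M) h1.isSelfAdjoint).2
      (fun x hx => h1.spectrum_pos hx)
    exact ⟨r, hr, Matrix.le_iff.1 hr2⟩
  · right
    have h1 : M.det = 0 := by
      by_contra hne
      exact hd (h.posDef_iff_det_ne_zero.2 hne)
    obtain ⟨x, hx, hx2⟩ := Matrix.exists_mulVec_eq_zero_iff.2 h1
    exact ⟨x, hx, by rw [hx2, dotProduct_zero]⟩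

theorem robust {X : Type*} [TopologicalSpace X] {k : ℕ} (f : X → Matrix (Fin k) (Fin k) ℂ) (x0 : X)
    (hf : ContinuousAt f x0) (hh : ∀ x, (f x).IsHermitian) {ε : ℝ} (hε : 0 < ε)
    (h : (f x0 - algebraMap ℝ _ ε).PosSemidef) : ∀ᶠ x in 𝓝 x0, (f x).PosSemidef := by
  have h1 : ∀ᶠ x in 𝓝 x0, ‖f x - f x0‖ < ε := by
    have := (Metric.tendsto_nhds.1 hf) ε hε
    simpa only [dist_eq_norm] using this
  filter_upwards [h1] with x hx
  have h2 : IsSelfAdjoint (f x - f x0) := (hh x).isSelfAdjoint.sub (hh x0).isSelfAdjoint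
  have h3 := h2.neg_algebraMap_norm_le_self
  have h4 : algebraMap ℝ (Matrix (Fin k) (Fin k) ℂ) ‖f x - f x0‖ ≤ algebraMap ℝ _ ε := by
    rw [Matrix.le_iff, ← map_sub]
    rw [← Matrix.nonneg_iff_posSemidef]
    exact algebraMap_nonneg _ (by linarith)
  have h5 : algebraMap ℝ (Matrix (Fin k) (Fin k) ℂ) ε ≤ f x0 := Matrix.le_iff.2 h
  rw [← Matrix.nonneg_iff_posSemidef]
  calc (0 : Matrix (Fin k) (Fin k) ℂ) = algebraMap ℝ _ ε + -(algebraMap ℝ _ ε) := by
        rw [add_neg_cancel]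
    _ ≤ f x0 + -(algebraMap ℝ _ ‖f x - f x0‖) := add_le_add h5 (neg_le_neg h4)
    _ ≤ f x0 + (f x - f x0) := add_le_add le_rfl h3
    _ = f x := by abel

/-- A pointwise positive semidefinite continuous family is of the form `Bᴴ B`, `B` continuous. -/
theorem exists_factor {X : Type*} [TopologicalSpace X] {n : ℕ}
    (Y : Matrix (Fin n) (Fin n) C(X, ℂ)) (h : ∀ x, (Y.map fun f => f x).PosSemidef) :
    ∃ B : Matrix (Fin n) (Fin n) C(X, ℂ), Y = Bᴴ * B := by
  have hc : Continuous fun x : X => Y.map fun f => f x := by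
    refine continuous_matrix fun i j => ?_
    exact (Y i j).continuous
  have hs : Continuous fun x : X => CFC.sqrt (Y.map fun f => f x) := by
    rw [← continuousOn_univ]
    exact CFC.continuousOn_sqrt.comp hc.continuousOn (fun x _ => (h x).nonneg)
  refine ⟨Matrix.of fun i j => ⟨fun x => CFC.sqrt (Y.map fun f => f x) i j, ?_⟩, ?_⟩
  · exact hs.matrix_elem i j
  · ext i j x
    have h1 : CFC.sqrt (Y.map fun f => f x) * CFC.sqrt (Y.map fun f => f x) =
        Y.map fun f => f x := CFC.sqrt_mul_sqrt_self _ (h x).nonneg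
    have h2 : (CFC.sqrt (Y.map fun f => f x))ᴴ = CFC.sqrt (Y.map fun f => f x) :=
      (CFC.sqrt_nonneg _).isSelfAdjoint
    have h3 : Y i j x = ((CFC.sqrt (Y.map fun f => f x))ᴴ * CFC.sqrt (Y.map fun f => f x)) i j := by
      rw [h2, h1]
      rfl
    rw [h3, Matrix.mul_apply, Matrix.mul_apply, ContinuousMap.sum_apply]
    rfl

end Pool.Agent.Q39.TC
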