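import Mathlib

/-! Positive semidefinite Toeplitz matrices of complex numbers: existence of an extension by one
row and one column, uniqueness when the given matrix is singular. -/

open Matrix
open scoped ComplexOrder

namespace Pool.Agent.Q39.TC

/-- The Toeplitz matrix `[a (i - j)]` of size `n`. -/
def toeplitz {A : Type*} (n : ℕ) (a : ℤ → A) : Matrix (Fin n) (Fin n) A :=
  Matrix.of fun i j => a ((i : ℤ) - (j : ℤ))

/-- The sequence `a` with the entries `z`, `star z` at the places `k`, `-k`. -/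
def ext {A : Type*} [Star A] (k : ℕ) (a : ℤ → A) (z : A) : ℤ → A :=
  fun l => if l = k then z else if l = -k then star z else a l

theorem gram_of_psd {n : ℕ} {M : Matrix (Fin n) (Fin n) ℂ} (h : M.PosSemidef) :
    ∃ v : Fin n → EuclideanSpace ℂ (Fin n), M = gram ℂ v := by
  obtain ⟨B, hB⟩ : ∃ B : Matrix (Fin n) (Fin n) ℂ, M = Bᴴ * B := by
    open scoped MatrixOrder in
    obtain ⟨B, hB⟩ := (CStarAlgebra.nonneg_iff_eq_star_mul_self (a := M)).1 h.nonneg
    exact ⟨B, hB⟩
  refine ⟨fun j => WithLp.toLp 2 fun l => B l j, ?_⟩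
  ext i j
  rw [hB, gram_apply, Matrix.mul_apply, PiLp.inner_apply]
  refine Finset.sum_congr rfl fun l _ => ?_
  simp [mul_comm]

theorem exists_shift {m : ℕ} {H : Type*} [NormedAddCommGroup H] [InnerProductSpace ℂ H]
    [FiniteDimensional ℂ H] (v : Fin (m + 1) → H)
    (hv : ∀ i j : Fin m, inner ℂ (v i.castSucc) (v j.castSucc) = inner ℂ (v i.succ) (v j.succ)) :
    ∃ U : H →ₗᵢ[ℂ] H, ∀ i : Fin m, U (v i.castSucc) = v i.succ := by
  set L : (Fin m → ℂ) →ₗ[ℂ] H := Fintype.linearCombination ℂ (fun i : Fin m => v i.castSucc)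
    with hL
  set L' : (Fin m → ℂ) →ₗ[ℂ] H := Fintype.linearCombination ℂ (fun i : Fin m => v i.succ)
    with hL'
  have hin : ∀ c : Fin m → ℂ, inner ℂ (L c) (L c) = inner ℂ (L' c) (L' c) := by
    intro c
    simp only [hL, hL', Fintype.linearCombination_apply, sum_inner, inner_sum, inner_smul_left,
      inner_smul_right, hv]
  have hnorm : ∀ c : Fin m → ℂ, ‖L' c‖ = ‖L c‖ := by
    intro c
    rw [@norm_eq_sqrt_re_inner ℂ, @norm_eq_sqrt_re_inner ℂ, hin]
  obtain ⟨g, hg⟩ := L.rangeRestrict.exists_rightInverse_of_surjective L.range_rangeRestrict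
  have hg' : ∀ s : LinearMap.range L, L (g s) = s := by
    intro s
    have := congrArg (fun f => ((f s : LinearMap.range L) : H)) hg
    simpa using this
  have hLc : ∀ c : Fin m → ℂ, L' (g (L.rangeRestrict c)) = L' c := by
    intro c
    have h1 : L (g (L.rangeRestrict c) - c) = 0 := by
      rw [map_sub, hg', LinearMap.codRestrict_apply, sub_self]
    have h2 : L' (g (L.rangeRestrict c) - c) = 0 := by
      rw [← norm_eq_zero, hnorm, h1, norm_zero]
    rw [map_sub, sub_eq_zero] at h2
    exact h2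
  let V : LinearMap.range L →ₗᵢ[ℂ] H :=
    ⟨L'.comp g, fun s => by
      rw [LinearMap.comp_apply, hnorm, hg']
      rfl⟩
  refine ⟨V.extend, fun i => ?_⟩
  have e1 : v i.castSucc = (L.rangeRestrict (Pi.single i 1) : LinearMap.range L) := by
    rw [LinearMap.codRestrict_apply, hL, Fintype.linearCombination_apply_single, one_smul]
  rw [e1, LinearIsometry.extend_apply]
  show L' (g (L.rangeRestrict (Pi.single i 1))) = v i.succ
  rw [hLc, hL', Fintype.linearCombination_apply_single, one_smul]

/-- A positive semidefinite Toeplitz matrix has a positive semidefinite Toeplitz extension. -/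
theorem exists_ext {k : ℕ} (hk : 0 < k) {a : ℤ → ℂ} (h : (toeplitz k a).PosSemidef) :
    ∃ z, (toeplitz (k + 1) (ext k a z)).PosSemidef := by
  obtain ⟨m, rfl⟩ : ∃ m, k = m + 1 := ⟨k - 1, by omega⟩
  obtain ⟨v, hv⟩ := gram_of_psd h
  have hv' : ∀ i j : Fin (m + 1), inner ℂ (v i) (v j) = a ((i : ℤ) - (j : ℤ)) := by
    intro i j
    have := congrFun (congrFun hv i) j
    rw [gram_apply] at this
    rw [← this]
    rfl
  obtain ⟨U, hU⟩ := exists_shift v (fun i j => by
    rw [hv', hv']
    congr 1
    simp only [Fin.val_castSucc, Fin.val_succ]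
    push_cast
    ring)
  set w : ℕ → EuclideanSpace ℂ (Fin (m + 1)) := fun n => (U^[n]) (v 0) with hw
  have hw1 : ∀ n, w (n + 1) = U (w n) := fun n => by
    simp only [hw, Function.iterate_succ_apply']
  have hwv : ∀ n (hn : n < m + 1), w n = v ⟨n, hn⟩ := by
    intro n
    induction n with
    | zero => intro hn; rfl
    | succ n ih =>
      intro hn
      rw [hw1, ih (by omega)]
      exact hU ⟨n, by omega⟩
  have hsh : ∀ s i j, inner ℂ (w (i + s)) (w (j + s)) = inner ℂ (w i) (w j) := by
    intro s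
    induction s with
    | zero => intro i j; rfl
    | succ s ih =>
      intro i j
      rw [← add_assoc, ← add_assoc, hw1, hw1, LinearIsometry.inner_map_map, ih]
  refine ⟨inner ℂ (w (m + 1)) (w 0), ?_⟩
  have key : ∀ i j : ℕ, i ≤ m + 1 → j ≤ i →
      ext (m + 1) a (inner ℂ (w (m + 1)) (w 0)) ((i : ℤ) - (j : ℤ)) = inner ℂ (w i) (w j) ∧
      ext (m + 1) a (inner ℂ (w (m + 1)) (w 0)) ((j : ℤ) - (i : ℤ)) = inner ℂ (w j) (w i) := by
    intro i j hi hj
    obtain ⟨d, rfl⟩ : ∃ d, i = d + j := ⟨i - j, by omega⟩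
    have e1 : inner ℂ (w (d + j)) (w j) = inner ℂ (w d) (w 0) := by
      have := hsh j d 0
      rwa [zero_add] at this
    have e2 : inner ℂ (w j) (w (d + j)) = inner ℂ (w 0) (w d) := by
      have := hsh j 0 d
      rwa [zero_add] at this
    have e3 : ((d + j : ℕ) : ℤ) - (j : ℤ) = d := by push_cast; ring
    have e4 : (j : ℤ) - ((d + j : ℕ) : ℤ) = -d := by push_cast; ring
    rw [e1, e2, e3, e4]
    by_cases hd : d = m + 1
    · subst hd
      constructor
      · simp [ext]
      · have h1 : (-((m + 1 : ℕ) : ℤ)) ≠ ((m + 1 : ℕ) : ℤ) := by push_cast; omega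
        simp only [ext, h1, if_false, if_true]
        exact inner_conj_symm _ _
    · have h1 : ((d : ℕ) : ℤ) ≠ ((m + 1 : ℕ) : ℤ) := by exact_mod_cast hd
      have h2 : ((d : ℕ) : ℤ) ≠ -((m + 1 : ℕ) : ℤ) := by push_cast; omega
      have h3 : (-(d : ℕ) : ℤ) ≠ ((m + 1 : ℕ) : ℤ) := by push_cast; omega
      have h4 : (-(d : ℕ) : ℤ) ≠ -((m + 1 : ℕ) : ℤ) := by
        intro hh
        exact h1 (neg_injective hh)
      simp only [ext, h1, h2, h3, h4, if_false]
      have hd' : d < m + 1 := by omega
      rw [hwv d hd', hwv 0 (by omega), hv', hv']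
      constructor <;> congr 1 <;> simp
  have e : toeplitz (m + 1 + 1) (ext (m + 1) a (inner ℂ (w (m + 1)) (w 0))) =
      gram ℂ (fun i : Fin (m + 1 + 1) => w i) := by
    ext i j
    rw [gram_apply]
    show ext (m + 1) a (inner ℂ (w (m + 1)) (w 0)) ((i : ℤ) - (j : ℤ)) = _
    rcases le_total (j : ℕ) (i : ℕ) with hji | hji
    · exact (key i j (by omega) hji).1
    · exact (key j i (by omega) hji).2
  rw [e]
  exact posSemidef_gram ℂ _

noncomputable def quad (n : ℕ) (a : ℤ → ℂ) (X : ℕ → ℂ) : ℂ :=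
  ∑ i ∈ Finset.range n, ∑ j ∈ Finset.range n, star (X i) * (a ((i : ℤ) - (j : ℤ)) * X j)

theorem quad_eq (n : ℕ) (a : ℤ → ℂ) (X : ℕ → ℂ) :
    star (fun i : Fin n => X i) ⬝ᵥ (toeplitz n a *ᵥ fun i : Fin n => X i) = quad n a X := by
  unfold quad
  rw [dotProduct, ← Fin.sum_univ_eq_sum_range
    (fun i => ∑ j ∈ Finset.range n, star (X i) * (a ((i : ℤ) - (j : ℤ)) * X j))]
  refine Finset.sum_congr rfl fun i _ => ?_
  rw [mulVec, dotProduct, Finset.mul_sum, ← Fin.sum_univ_eq_sum_range
    (fun j => star (X i) * (a ((i : ℤ) - (j : ℤ)) * X j))]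
  rfl

/-- A singular positive semidefinite Toeplitz matrix has at most one extension. -/
theorem ext_unique {k : ℕ} {a : ℤ → ℂ} {x : Fin k → ℂ} (hx : x ≠ 0)
    (hq : star x ⬝ᵥ (toeplitz k a *ᵥ x) = 0) {z z' : ℂ}
    (hz : (toeplitz (k + 1) (ext k a z)).PosSemidef)
    (hz' : (toeplitz (k + 1) (ext k a z')).PosSemidef) : z = z' := by
  classical
  set X : ℕ → ℂ := fun i => if h : i < k then x ⟨i, h⟩ else 0 with hX
  have hXx : (fun i : Fin k => X i) = x := by
    funext i
    simp [hX]
  -- the last non-zero coordinate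
  obtain ⟨i0, hi0⟩ : ∃ i : Fin k, x i ≠ 0 := by
    by_contra hcon
    push Not at hcon
    exact hx (funext hcon)
  have hXi0 : X i0 ≠ 0 := by simpa [hX] using hi0
  set m := Nat.findGreatest (fun i => X i ≠ 0) k with hm
  have hXm : X m ≠ 0 := Nat.findGreatest_spec (P := fun i => X i ≠ 0) i0.2.le hXi0
  have hmk : m < k := by
    by_contra hcon
    exact hXm (by simp [hX, hcon])
  have hXgt : ∀ i, m < i → X i = 0 := by
    intro i hi
    by_cases hik : i ≤ k
    · have := Nat.findGreatest_is_greatest hi hik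
      simpa using this
    · simp only [hX]
      rw [dif_neg (by omega)]
  set s := k - m with hs
  have hsk : s + (m + 1) = k + 1 := by omega
  set Y : ℕ → ℂ := fun j => if j < s then 0 else X (j - s) with hY
  have hYs : ∀ i, Y (s + i) = X i := by
    intro i
    simp [hY]
  have hY0 : ∀ i ∈ Finset.range s, Y i = 0 := by
    intro i hi
    simp [hY, Finset.mem_range.1 hi]
  have q1 : quad k a X = quad (m + 1) a X := by
    unfold quad
    have hsub : Finset.range (m + 1) ⊆ Finset.range k := Finset.range_subset_range.2 hmk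
    symm
    rw [← Finset.sum_subset hsub]
    · refine Finset.sum_congr rfl fun i _ => ?_
      refine Finset.sum_subset hsub fun j _ hj => ?_
      rw [hXgt j (by simpa using hj)]
      simp
    · intro i _ hi
      rw [hXgt i (by simpa using hi)]
      simp
  have q2 : ∀ z : ℂ, quad (k + 1) (ext k a z) Y = quad (m + 1) a X := by
    intro z
    unfold quad
    rw [← hsk, Finset.sum_range_add, Finset.sum_eq_zero (s := Finset.range s), zero_add]
    · refine Finset.sum_congr rfl fun i hi => ?_
      rw [Finset.sum_range_add, Finset.sum_eq_zero (s := Finset.range s), zero_add]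
      · refine Finset.sum_congr rfl fun j hj => ?_
        rw [hYs, hYs]
        have hi' := Finset.mem_range.1 hi
        have hj' := Finset.mem_range.1 hj
        have e : ((s + i : ℕ) : ℤ) - ((s + j : ℕ) : ℤ) = (i : ℤ) - (j : ℤ) := by push_cast; ring
        rw [e]
        have h1 : (i : ℤ) - (j : ℤ) ≠ (k : ℤ) := by omega
        have h2 : (i : ℤ) - (j : ℤ) ≠ -(k : ℤ) := by omega
        simp only [ext, h1, h2, if_false]
      · intro j hj
        rw [hY0 j hj]
        simp
    · intro i hi
      rw [hY0 i hi]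
      simp
  have hq0 : quad (m + 1) a X = 0 := by
    rw [← q1, ← quad_eq, hXx]
    exact hq
  -- the vector `Y` is in the kernel
  have hrow : ∀ z : ℂ, (toeplitz (k + 1) (ext k a z)).PosSemidef →
      star z * X m + ∑ j ∈ Finset.range k, a (-(j : ℤ)) * Y j = 0 := by
    intro z hz
    have h0 : star (fun i : Fin (k + 1) => Y i) ⬝ᵥ
        (toeplitz (k + 1) (ext k a z) *ᵥ fun i : Fin (k + 1) => Y i) = 0 := by
      rw [quad_eq, q2, hq0]
    have h1 := (hz.dotProduct_mulVec_zero_iff _).1 h0
    have h2 := congrFun h1 0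
    rw [mulVec, dotProduct] at h2
    have h3 : ∑ i : Fin (k + 1), toeplitz (k + 1) (ext k a z) 0 i * Y i =
        ∑ j ∈ Finset.range (k + 1), ext k a z (-(j : ℤ)) * Y j := by
      rw [← Fin.sum_univ_eq_sum_range (fun j => ext k a z (-(j : ℤ)) * Y j)]
      refine Finset.sum_congr rfl fun i _ => ?_
      simp [toeplitz]
    rw [h3, Finset.sum_range_succ] at h2
    have h4 : ∑ j ∈ Finset.range k, ext k a z (-(j : ℤ)) * Y j =
        ∑ j ∈ Finset.range k, a (-(j : ℤ)) * Y j := by
      refine Finset.sum_congr rfl fun j hj => ?_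
      have hj' := Finset.mem_range.1 hj
      have h5 : -(j : ℤ) ≠ (k : ℤ) := by omega
      have h6 : -(j : ℤ) ≠ -(k : ℤ) := by omega
      simp only [ext, h5, h6, if_false]
    have h7 : ext k a z (-(k : ℤ)) = star z := by
      have : -(k : ℤ) ≠ (k : ℤ) := by omega
      simp only [ext, this, if_false, if_true]
    have h8 : Y k = X m := by
      have := hYs m
      rwa [show s + m = k by omega] at this
    rw [h4, h7, h8, add_comm] at h2
    exact h2
  have e1 := hrow z hz
  have e2 := hrow z' hz'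
  have e3 : star z * X m = star z' * X m := by
    linear_combination e1 - e2
  exact star_injective (mul_right_cancel₀ hXm e3)

end Pool.Agent.Q39.TC
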