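import Pool.Agent.Q39.TC.Cont

/-! One step extensions of continuous families of positive semidefinite Toeplitz matrices over the
one point compactification of `ℕ`. -/

open Matrix Filter Topology
open scoped ComplexOrder MatrixOrder Matrix.Norms.L2Operator

namespace Pool.Agent.Q39.TC

theorem psd_of_tendsto {X : Type*} {l : Filter X} [l.NeBot] {n : ℕ}
    {f : X → Matrix (Fin n) (Fin n) ℂ} {M : Matrix (Fin n) (Fin n) ℂ} (hf : Tendsto f l (𝓝 M))
    (h : ∀ x, (f x).PosSemidef) : M.PosSemidef := by
  have he : ∀ i j, Tendsto (fun x => f x i j) l (𝓝 (M i j)) := fun i j =>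
    ((continuous_id.matrix_elem i j).tendsto M).comp hf
  refine .of_dotProduct_mulVec_nonneg ?_ fun v => ?_
  · ext i j
    rw [conjTranspose_apply]
    refine tendsto_nhds_unique (((continuous_star.tendsto _).comp (he j i))) ?_
    refine (he i j).congr fun x => ?_
    exact ((h x).1.apply i j).symm
  · have h1 : Tendsto (fun x => star v ⬝ᵥ (f x *ᵥ v)) l (𝓝 (star v ⬝ᵥ (M *ᵥ v))) := by
      simp only [dotProduct, mulVec]
      refine tendsto_finsetSum _ fun i _ => Tendsto.const_mul _ ?_
      exact tendsto_finsetSum _ fun j _ => (he i j).mul_const _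
    exact ge_of_tendsto' h1 fun x => (h x).dotProduct_mulVec_nonneg v

theorem herm_ext {k : ℕ} (hk : 0 < k) {a : ℤ → ℂ} (h : (toeplitz k a).IsHermitian) (z : ℂ) :
    (toeplitz (k + 1) (ext k a z)).IsHermitian := by
  have key : ∀ d : ℕ, d < k → a (-(d : ℤ)) = star (a d) ∧ star (a (-(d : ℤ))) = a d := by
    intro d hd
    have h1 := h.apply ⟨0, by omega⟩ ⟨d, hd⟩
    simp only [toeplitz, Matrix.of_apply] at h1
    have e1 : ((d : ℕ) : ℤ) - ((0 : ℕ) : ℤ) = d := by simp
    have e2 : ((0 : ℕ) : ℤ) - ((d : ℕ) : ℤ) = -d := by simp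
    rw [e1, e2] at h1
    exact ⟨h1.symm, by rw [← h1, star_star]⟩
  have main : ∀ l : ℤ, |l| ≤ k → star (ext k a z (-l)) = ext k a z l := by
    intro l hl
    rcases lt_trichotomy |l| (k : ℤ) with h1 | h1 | h1
    · have h2 : l ≠ k := by
        rintro rfl
        simp at h1
      have h3 : l ≠ -(k : ℤ) := by
        rintro rfl
        simp at h1
      have h4 : -l ≠ k := fun hh => h3 (by omega)
      have h5 : -l ≠ -(k : ℤ) := fun hh => h2 (by omega)
      simp only [ext, h2, h3, h4, h5, if_false]
      rcases le_total 0 l with h6 | h6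
      · obtain ⟨d, rfl⟩ := Int.eq_ofNat_of_zero_le h6
        rw [abs_of_nonneg h6] at h1
        exact (key d (by exact_mod_cast h1)).2
      · obtain ⟨d, hd⟩ := Int.eq_ofNat_of_zero_le (a := -l) (by omega)
        obtain rfl : l = -(d : ℤ) := by omega
        rw [abs_of_nonpos h6] at h1
        rw [neg_neg]
        exact (key d (by omega)).1.symm
    · rcases le_total 0 l with h6 | h6
      · rw [abs_of_nonneg h6] at h1
        subst h1
        have h7 : -(k : ℤ) ≠ k := by omega
        simp [ext, h7]
      · rw [abs_of_nonpos h6] at h1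
        obtain rfl : l = -(k : ℤ) := by omega
        have h7 : -(k : ℤ) ≠ k := by omega
        simp [ext, h7]
    · omega
  ext i j
  rw [conjTranspose_apply]
  simp only [toeplitz, Matrix.of_apply]
  have := main ((i : ℤ) - (j : ℤ)) (by
    rw [abs_le]
    have hi := i.2
    have hj := j.2
    omega)
  rw [neg_sub] at this
  exact this

theorem ext_bound {k : ℕ} (hk : 0 < k) {a : ℤ → ℂ} {z : ℂ}
    (h : (toeplitz (k + 1) (ext k a z)).PosSemidef) : ‖z‖ ≤ ‖a 0‖ := by
  obtain ⟨v, hv⟩ := gram_of_psd h
  have h1 : ∀ i : Fin (k + 1), ‖v i‖ * ‖v i‖ = ‖a 0‖ := by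
    intro i
    have h2 := congrFun (congrFun hv i) i
    rw [gram_apply] at h2
    simp only [toeplitz, Matrix.of_apply, sub_self] at h2
    have h3 : (0 : ℤ) ≠ (k : ℤ) := by omega
    have h4 : (0 : ℤ) ≠ -(k : ℤ) := by omega
    simp only [ext, h3, h4, if_false] at h2
    rw [h2, inner_self_eq_norm_sq_to_K]
    simp [sq]
  have h5 := congrFun (congrFun hv (Fin.last k)) 0
  rw [gram_apply] at h5
  have h6 : toeplitz (k + 1) (ext k a z) (Fin.last k) 0 = z := by
    simp [toeplitz, ext]
  rw [h6] at h5
  have h7 : ‖v (Fin.last k)‖ * ‖v 0‖ ≤ ‖a 0‖ := by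
    have e1 := h1 (Fin.last k)
    have e2 := h1 0
    nlinarith [sq_nonneg (‖v (Fin.last k)‖ - ‖v 0‖)]
  rw [h5]
  exact (norm_inner_le_norm _ _).trans h7

theorem tendsto_coe : Tendsto (fun n : ℕ => (n : OnePoint ℕ)) atTop (𝓝 OnePoint.infty) :=
  (OnePoint.continuous_iff_from_nat (id : OnePoint ℕ → OnePoint ℕ)).1 continuous_id

/-- The one step extension over the one point compactification of `ℕ`. -/
theorem step {k : ℕ} (hk : 0 < k) (a : ℤ → C(OnePoint ℕ, ℂ))
    (h : ∀ x, (toeplitz k fun l => a l x).PosSemidef) :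
    ∃ z : C(OnePoint ℕ, ℂ), ∀ x, (toeplitz (k + 1) fun l => ext k a z l x).PosSemidef := by
  classical
  have hex : ∀ x, ∃ z, (toeplitz (k + 1) (ext k (fun l => a l x) z)).PosSemidef := fun x =>
    exists_ext hk (h x)
  -- it is enough to choose the values
  suffices hs : ∃ zf : OnePoint ℕ → ℂ,
      (∀ x, (toeplitz (k + 1) (ext k (fun l => a l x) (zf x))).PosSemidef) ∧
      Tendsto (fun n : ℕ => zf n) atTop (𝓝 (zf OnePoint.infty)) by
    obtain ⟨zf, h1, h2⟩ := hs
    refine ⟨⟨zf, (OnePoint.continuous_iff_from_nat zf).2 h2⟩, fun x => ?_⟩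
    have e : (fun l => ext k a ⟨zf, (OnePoint.continuous_iff_from_nat zf).2 h2⟩ l x) =
        ext k (fun l => a l x) (zf x) := by
      funext l
      unfold ext
      split_ifs <;> rfl
    rw [e]
    exact h1 x
  have hFc : ∀ z : ℂ, Continuous fun x : OnePoint ℕ =>
      toeplitz (k + 1) (ext k (fun l => a l x) z) := by
    intro z
    refine continuous_matrix fun i j => ?_
    simp only [toeplitz, Matrix.of_apply, ext]
    split_ifs
    · exact continuous_const
    · exact continuous_const
    · exact (a _).continuous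
  rcases dichotomy hk (h OnePoint.infty) with ⟨ε, hε, hM⟩ | ⟨x, hx, hq⟩
  · -- the regular case
    set a' : ℤ → ℂ := fun l => if l = 0 then a 0 OnePoint.infty - ε else a l OnePoint.infty
      with ha'
    have e1 : toeplitz k (fun l => a l OnePoint.infty) - algebraMap ℝ _ ε = toeplitz k a' := by
      ext i j
      rw [Matrix.sub_apply, Matrix.algebraMap_matrix_apply]
      simp only [toeplitz, Matrix.of_apply, ha']
      by_cases hij : i = j
      · subst hij
        simp
      · have : ((i : ℕ) : ℤ) - ((j : ℕ) : ℤ) ≠ 0 := by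
          intro hh
          apply hij
          apply Fin.ext
          omega
        simp [hij, this]
    rw [e1] at hM
    obtain ⟨z, hz⟩ := exists_ext hk hM
    have e2 : toeplitz (k + 1) (ext k (fun l => a l OnePoint.infty) z) - algebraMap ℝ _ ε =
        toeplitz (k + 1) (ext k a' z) := by
      ext i j
      rw [Matrix.sub_apply, Matrix.algebraMap_matrix_apply]
      simp only [toeplitz, Matrix.of_apply, ha', ext]
      by_cases hij : i = j
      · subst hij
        have h3 : (0 : ℤ) ≠ (k : ℤ) := by omega
        have h4 : (0 : ℤ) ≠ -(k : ℤ) := by omega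
        simp only [sub_self, h3, h4, if_false, if_true]
        simp
      · have : ((i : ℕ) : ℤ) - ((j : ℕ) : ℤ) ≠ 0 := by
          intro hh
          apply hij
          apply Fin.ext
          omega
        simp [hij, this]
    have hrob := robust (fun x : OnePoint ℕ => toeplitz (k + 1) (ext k (fun l => a l x) z))
      OnePoint.infty (hFc z).continuousAt (fun x => herm_ext hk (h x).1 z) hε (by rw [e2]; exact hz)
    refine ⟨fun x => if (toeplitz (k + 1) (ext k (fun l => a l x) z)).PosSemidef then z else
      (hex x).choose, fun x => ?_, ?_⟩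
    · by_cases hp : (toeplitz (k + 1) (ext k (fun l => a l x) z)).PosSemidef
      · simp only [hp, if_true]
      · simp only [hp, if_false]
        exact (hex x).choose_spec
    · have h0 : (toeplitz (k + 1) (ext k (fun l => a l OnePoint.infty) z)).PosSemidef :=
        hrob.self_of_nhds
      have hev := tendsto_coe.eventually hrob
      refine tendsto_const_nhds.congr' ?_
      filter_upwards [hev] with n hn
      simp only [h0, hn, if_true]
  · -- the singular case
    refine ⟨fun x => (hex x).choose, fun x => (hex x).choose_spec, ?_⟩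
    refine (isCompact_closedBall (0 : ℂ) ‖a 0‖).tendsto_nhds_of_unique_mapClusterPt
      (Eventually.of_forall fun n => ?_) fun z _ hz => ?_
    · rw [mem_closedBall_zero_iff]
      exact (ext_bound hk (hex n).choose_spec).trans ((a 0).norm_coe_le_norm n)
    · obtain ⟨ψ, hψ, hψ2⟩ := hz.tendsto_subseq
      have hMt : Tendsto (fun n : ℕ => toeplitz (k + 1)
          (ext k (fun l => a l ((ψ n : ℕ) : OnePoint ℕ)) (hex (ψ n : ℕ)).choose)) atTop
          (𝓝 (toeplitz (k + 1) (ext k (fun l => a l OnePoint.infty) z))) := by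
        refine tendsto_pi_nhds.2 fun i => tendsto_pi_nhds.2 fun j => ?_
        simp only [toeplitz, Matrix.of_apply, ext]
        split_ifs
        · exact hψ2
        · exact (continuous_star.tendsto _).comp hψ2
        · exact ((a _).continuous.tendsto _).comp (tendsto_coe.comp hψ.tendsto_atTop)
      exact ext_unique hx hq (psd_of_tendsto hMt fun n => (hex _).choose_spec)
        (hex OnePoint.infty).choose_spec

end Pool.Agent.Q39.TC
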